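import Mathlib

/-!
Exchange property of the degree vectors of subgraphs without large bicliques.
-/

namespace Pool.Agent.H20NC

open Finset

attribute [local instance] Classical.propDecidable

set_option linter.unusedSectionVars false

variable {V : Type*} [Fintype V]

/-- neighbours of `v` as a finset -/
noncomputable def nb (M : SimpleGraph V) (v : V) : Finset V := univ.filter (fun w => M.Adj v w)

lemma mem_nb {M : SimpleGraph V} {v w : V} : w ∈ nb M v ↔ M.Adj v w := by
  unfold nb; simp

/-- no biclique with at least `t + 2` vertices -/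
def Free (t : ℕ) (M : SimpleGraph V) : Prop :=
  ∀ A B : Finset V, A.Nonempty → B.Nonempty → (∀ a ∈ A, ∀ b ∈ B, M.Adj a b) →
    A.card + B.card ≤ t + 1

/-- the degree vector -/
noncomputable def dg (M : SimpleGraph V) : V → ℤ := fun v => ((nb M v).card : ℤ)

/-- a step from `x` towards `y` -/
def Step (x y s : V → ℤ) : Prop :=
  ∃ w, (s = Pi.single w 1 ∧ x w < y w) ∨ (s = Pi.single w (-1) ∧ y w < x w)

lemma Free.mono {t : ℕ} {M N : SimpleGraph V} (h : Free t N) (hMN : M ≤ N) : Free t M :=
  fun A B hA hB hK => h A B hA hB (fun a ha b hb => hMN (hK a ha b hb))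

lemma Free.card_nb {t : ℕ} {M : SimpleGraph V} (h : Free t M) (v : V) : (nb M v).card ≤ t := by
  rcases Finset.eq_empty_or_nonempty (nb M v) with h0 | h0
  · rw [h0]; simp
  · have := h {v} (nb M v) (by simp) h0 (by
      intro a ha b hb
      rw [Finset.mem_singleton] at ha
      subst ha
      exact mem_nb.1 hb)
    simp at this
    omega

/-- two different vertices with the same neighbourhood of full size are impossible -/
lemma Free.eq_of_nb {t : ℕ} {M : SimpleGraph V} (h : Free t M) {u w : V} {S : Finset V}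
    (hS : S.card = t) (ht : 1 ≤ t) (hu : ∀ a ∈ S, M.Adj u a) (hw : ∀ a ∈ S, M.Adj w a) :
    u = w := by
  by_contra hne
  have hSn : S.Nonempty := by
    rw [← Finset.card_pos]; omega
  have := h {u, w} S (by simp) hSn (by
    intro a ha b hb
    rw [Finset.mem_insert, Finset.mem_singleton] at ha
    rcases ha with rfl | rfl
    · exact hu b hb
    · exact hw b hb)
  rw [Finset.card_pair hne] at this
  omega

/-- adding the edge `h u` and removing the edge `v u` -/
def mv (M : SimpleGraph V) (h u v : V) : SimpleGraph V :=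
  (M ⊔ SimpleGraph.edge h u) \ SimpleGraph.edge v u

lemma mv_adj {M : SimpleGraph V} {h u v a b : V} (hhu : h ≠ u) (hvu : v ≠ u) :
    (mv M h u v).Adj a b ↔
      (M.Adj a b ∨ (a = h ∧ b = u) ∨ (a = u ∧ b = h)) ∧
        ¬ ((a = v ∧ b = u) ∨ (a = u ∧ b = v)) := by
  unfold mv
  rw [SimpleGraph.sdiff_adj, SimpleGraph.sup_adj, SimpleGraph.edge_adj, SimpleGraph.edge_adj]
  constructor
  · rintro ⟨h1, h2⟩
    constructor
    · rcases h1 with h1 | ⟨h1, _⟩
      · exact Or.inl h1
      · rcases h1 with h1 | h1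
        · exact Or.inr (Or.inl ⟨h1.1, h1.2⟩)
        · exact Or.inr (Or.inr ⟨h1.1, h1.2⟩)
    · intro h3
      apply h2
      rcases h3 with h3 | h3
      · exact ⟨Or.inl h3, by rw [h3.1, h3.2]; exact hvu⟩
      · exact ⟨Or.inr h3, by rw [h3.1, h3.2]; exact hvu.symm⟩
  · rintro ⟨h1, h2⟩
    constructor
    · rcases h1 with h1 | h1 | h1
      · exact Or.inl h1
      · exact Or.inr ⟨Or.inl h1, by rw [h1.1, h1.2]; exact hhu⟩
      · exact Or.inr ⟨Or.inr h1, by rw [h1.1, h1.2]; exact hhu.symm⟩
    · intro h3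
      exact h2 h3.1

section degrees

/-- the ordered pairs on which the two graphs differ -/
noncomputable def dset (M N : SimpleGraph V) : Finset (V × V) :=
  univ.filter (fun p : V × V => ¬ (M.Adj p.1 p.2 ↔ N.Adj p.1 p.2))

lemma mem_dset {M N : SimpleGraph V} {a b : V} :
    (a, b) ∈ dset M N ↔ ¬ (M.Adj a b ↔ N.Adj a b) := by
  unfold dset
  simp only [Finset.mem_filter, Finset.mem_univ, true_and]

/-- number of ordered pairs on which the two graphs differ -/
noncomputable def df (M N : SimpleGraph V) : ℕ := (dset M N).card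

lemma dg_apply (M : SimpleGraph V) (v : V) : dg M v = ((nb M v).card : ℤ) := rfl

/-- neighbourhoods after deleting an edge -/
lemma nb_sdiff_edge {M : SimpleGraph V} {v w : V} (hvw : M.Adj v w) (x : V) :
    nb (M \ SimpleGraph.edge v w) x =
      if x = v then (nb M x).erase w else if x = w then (nb M x).erase v else nb M x := by
  have hne : v ≠ w := hvw.ne
  ext y
  rw [mem_nb, SimpleGraph.sdiff_adj, SimpleGraph.edge_adj]
  split_ifs with h1 h2
  · subst h1
    rw [Finset.mem_erase, mem_nb]
    constructor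
    · rintro ⟨h3, h4⟩
      refine ⟨?_, h3⟩
      rintro rfl
      exact h4 ⟨Or.inl ⟨rfl, rfl⟩, hne⟩
    · rintro ⟨h3, h4⟩
      refine ⟨h4, ?_⟩
      rintro ⟨h5 | h5, _⟩
      · exact h3 h5.2
      · exact hne h5.1
  · subst h2
    rw [Finset.mem_erase, mem_nb]
    constructor
    · rintro ⟨h3, h4⟩
      refine ⟨?_, h3⟩
      rintro rfl
      exact h4 ⟨Or.inr ⟨rfl, rfl⟩, hne.symm⟩
    · rintro ⟨h3, h4⟩
      refine ⟨h4, ?_⟩
      rintro ⟨h5 | h5, _⟩
      · exact h1 h5.1
      · exact h3 h5.2
  · rw [mem_nb]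
    constructor
    · rintro ⟨h3, _⟩
      exact h3
    · intro h3
      refine ⟨h3, ?_⟩
      rintro ⟨h5 | h5, _⟩
      · exact h1 h5.1
      · exact h2 h5.1

lemma nb_sup_edge {M : SimpleGraph V} {h u : V} (hne : h ≠ u) (x : V) :
    nb (M ⊔ SimpleGraph.edge h u) x =
      if x = h then insert u (nb M x) else if x = u then insert h (nb M x) else nb M x := by
  ext y
  rw [mem_nb, SimpleGraph.sup_adj, SimpleGraph.edge_adj]
  split_ifs with h1 h2
  · subst h1
    rw [Finset.mem_insert, mem_nb]
    constructor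
    · rintro (h3 | ⟨h3 | h3, _⟩)
      · exact Or.inr h3
      · exact Or.inl h3.2
      · exact absurd h3.1 hne
    · rintro (h3 | h3)
      · exact Or.inr ⟨Or.inl ⟨rfl, h3⟩, by rw [h3]; exact hne⟩
      · exact Or.inl h3
  · subst h2
    rw [Finset.mem_insert, mem_nb]
    constructor
    · rintro (h3 | ⟨h3 | h3, _⟩)
      · exact Or.inr h3
      · exact absurd h3.1 h1
      · exact Or.inl h3.2
    · rintro (h3 | h3)
      · exact Or.inr ⟨Or.inr ⟨rfl, h3⟩, by rw [h3]; exact hne.symm⟩
      · exact Or.inl h3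
  · rw [mem_nb]
    constructor
    · rintro (h3 | ⟨h3 | h3, _⟩)
      · exact h3
      · exact absurd h3.1 h1
      · exact absurd h3.1 h2
    · intro h3
      exact Or.inl h3

lemma dg_sdiff_edge {M : SimpleGraph V} {v w : V} (hvw : M.Adj v w) :
    dg (M \ SimpleGraph.edge v w) = dg M + Pi.single v (-1) + Pi.single w (-1) := by
  have hne : v ≠ w := hvw.ne
  funext x
  rw [Pi.add_apply, Pi.add_apply, dg_apply, dg_apply, nb_sdiff_edge hvw]
  split_ifs with h1 h2
  · subst h1
    rw [Pi.single_eq_same, Pi.single_eq_of_ne hne,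
      Finset.card_erase_of_mem (mem_nb.2 hvw)]
    have : 0 < (nb M x).card := Finset.card_pos.2 ⟨w, mem_nb.2 hvw⟩
    rw [Nat.cast_sub (by omega)]
    push_cast
    ring
  · subst h2
    rw [Pi.single_eq_same, Pi.single_eq_of_ne h1,
      Finset.card_erase_of_mem (mem_nb.2 hvw.symm)]
    have : 0 < (nb M x).card := Finset.card_pos.2 ⟨v, mem_nb.2 hvw.symm⟩
    rw [Nat.cast_sub (by omega)]
    push_cast
    ring
  · rw [Pi.single_eq_of_ne h1, Pi.single_eq_of_ne h2]
    ring

lemma dg_sup_edge {M : SimpleGraph V} {h u : V} (hne : h ≠ u) (hhu : ¬ M.Adj h u) :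
    dg (M ⊔ SimpleGraph.edge h u) = dg M + Pi.single h 1 + Pi.single u 1 := by
  funext x
  rw [Pi.add_apply, Pi.add_apply, dg_apply, dg_apply, nb_sup_edge hne]
  split_ifs with h1 h2
  · subst h1
    rw [Pi.single_eq_same, Pi.single_eq_of_ne hne,
      Finset.card_insert_of_notMem (fun h3 => hhu (mem_nb.1 h3))]
    push_cast
    ring
  · subst h2
    rw [Pi.single_eq_same, Pi.single_eq_of_ne h1,
      Finset.card_insert_of_notMem (fun h3 => hhu (mem_nb.1 h3).symm)]
    push_cast
    ring
  · rw [Pi.single_eq_of_ne h1, Pi.single_eq_of_ne h2]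
    ring

lemma dg_mv {M : SimpleGraph V} {h u v : V} (hne : h ≠ u) (hhu : ¬ M.Adj h u)
    (hvu : M.Adj v u) :
    dg (mv M h u v) = dg M + Pi.single h 1 + Pi.single v (-1) := by
  unfold mv
  rw [dg_sdiff_edge (SimpleGraph.sup_adj _ _ _ _ |>.2 (Or.inl hvu)), dg_sup_edge hne hhu]
  have h0 : (Pi.single u 1 : V → ℤ) + Pi.single u (-1) = 0 := by
    rw [← Pi.single_add]; simp
  calc dg M + Pi.single h 1 + Pi.single u 1 + Pi.single v (-1) + Pi.single u (-1)
      = dg M + Pi.single h 1 + Pi.single v (-1) + (Pi.single u 1 + Pi.single u (-1)) := by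
        abel
    _ = _ := by rw [h0, add_zero]

/-- adding an edge of `N` decreases the difference -/
lemma df_sup_edge {M N : SimpleGraph V} {h u : V} (hN : N.Adj h u) (hM : ¬ M.Adj h u) :
    df (M ⊔ SimpleGraph.edge h u) N + 2 = df M N := by
  have hne : h ≠ u := hN.ne
  have hM' : ¬ M.Adj u h := fun h3 => hM h3.symm
  have hset : dset M N = insert (h, u) (insert (u, h) (dset (M ⊔ SimpleGraph.edge h u) N)) := by
    ext ⟨a, b⟩
    rw [Finset.mem_insert, Finset.mem_insert, mem_dset, mem_dset, SimpleGraph.sup_adj,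
      SimpleGraph.edge_adj, Prod.mk.injEq, Prod.mk.injEq]
    by_cases h1 : a = h ∧ b = u
    · obtain ⟨rfl, rfl⟩ := h1
      simp [hN, hM]
    · by_cases h2 : a = u ∧ b = h
      · obtain ⟨rfl, rfl⟩ := h2
        simp [hN.symm, hM']
      · simp [h1, h2]
  have h4 : (u, h) ∉ dset (M ⊔ SimpleGraph.edge h u) N := by
    rw [mem_dset, not_not, SimpleGraph.sup_adj, SimpleGraph.edge_adj]
    constructor
    · intro _; exact hN.symm
    · intro _; exact Or.inr ⟨Or.inr ⟨rfl, rfl⟩, hne.symm⟩
  have h5 : (h, u) ∉ insert (u, h) (dset (M ⊔ SimpleGraph.edge h u) N) := by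
    rw [Finset.mem_insert, mem_dset, Prod.mk.injEq, not_or, not_not, SimpleGraph.sup_adj,
      SimpleGraph.edge_adj]
    refine ⟨fun h3 => hne h3.1, ?_⟩
    constructor
    · intro _; exact hN
    · intro _; exact Or.inr ⟨Or.inl ⟨rfl, rfl⟩, hne⟩
  unfold df
  rw [hset, Finset.card_insert_of_notMem h5, Finset.card_insert_of_notMem h4]

/-- removing an edge outside `N` decreases the difference -/
lemma df_sdiff_edge {M N : SimpleGraph V} {v w : V} (hM : M.Adj v w) (hN : ¬ N.Adj v w) :
    df (M \ SimpleGraph.edge v w) N + 2 = df M N := by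
  have hne : v ≠ w := hM.ne
  have hN' : ¬ N.Adj w v := fun h3 => hN h3.symm
  have hset : dset M N = insert (v, w) (insert (w, v) (dset (M \ SimpleGraph.edge v w) N)) := by
    ext ⟨a, b⟩
    rw [Finset.mem_insert, Finset.mem_insert, mem_dset, mem_dset, SimpleGraph.sdiff_adj,
      SimpleGraph.edge_adj, Prod.mk.injEq, Prod.mk.injEq]
    by_cases h1 : a = v ∧ b = w
    · obtain ⟨rfl, rfl⟩ := h1
      simp [hN, hM]
    · by_cases h2 : a = w ∧ b = v
      · obtain ⟨rfl, rfl⟩ := h2
        simp [hM.symm, hN']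
      · simp [h1, h2]
  have h4 : (w, v) ∉ dset (M \ SimpleGraph.edge v w) N := by
    rw [mem_dset, not_not, SimpleGraph.sdiff_adj, SimpleGraph.edge_adj]
    constructor
    · intro h3; exact absurd ⟨Or.inr ⟨rfl, rfl⟩, hne.symm⟩ h3.2
    · intro h3; exact absurd h3 hN'
  have h5 : (v, w) ∉ insert (w, v) (dset (M \ SimpleGraph.edge v w) N) := by
    rw [Finset.mem_insert, mem_dset, Prod.mk.injEq, not_or, not_not, SimpleGraph.sdiff_adj,
      SimpleGraph.edge_adj]
    refine ⟨fun h3 => hne h3.1, ?_⟩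
    constructor
    · intro h3; exact absurd ⟨Or.inl ⟨rfl, rfl⟩, hne⟩ h3.2
    · intro h3; exact absurd h3 hN
  unfold df
  rw [hset, Finset.card_insert_of_notMem h5, Finset.card_insert_of_notMem h4]

/-- removing a common edge increases the difference -/
lemma df_sdiff_edge' {M N : SimpleGraph V} {v w : V} (hM : M.Adj v w) (hN : N.Adj v w) :
    df (M \ SimpleGraph.edge v w) N = df M N + 2 := by
  have h1 : ¬ (M \ SimpleGraph.edge v w).Adj v w := by
    rw [SimpleGraph.sdiff_adj, SimpleGraph.edge_adj]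
    rintro ⟨_, h2⟩
    exact h2 ⟨Or.inl ⟨rfl, rfl⟩, hM.ne⟩
  have h2 := df_sup_edge hN h1
  have hG : (M \ SimpleGraph.edge v w) ⊔ SimpleGraph.edge v w = M := by
    ext a b
    rw [SimpleGraph.sup_adj, SimpleGraph.sdiff_adj]
    constructor
    · rintro (h3 | h3)
      · exact h3.1
      · rw [SimpleGraph.edge_adj] at h3
        rcases h3 with ⟨h3 | h3, _⟩
        · rw [h3.1, h3.2]; exact hM
        · rw [h3.1, h3.2]; exact hM.symm
    · intro h3
      by_cases h4 : (SimpleGraph.edge v w).Adj a b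
      · exact Or.inr h4
      · exact Or.inl ⟨h3, h4⟩
  rw [hG] at h2
  exact h2.symm

end degrees

section states

variable {t : ℕ} {N H : SimpleGraph V} {m : ℕ} {z : V → ℤ}

/-- the exchange conclusion for the graph `M` and the step `s` -/
def Ex (t : ℕ) (N H M : SimpleGraph V) (s : V → ℤ) : Prop :=
  ∃ (M' : SimpleGraph V) (r : V → ℤ), Free t M' ∧ M' ≤ H ∧ df M' N ≤ df M N ∧
    Step (dg M + s) (dg N) r ∧ dg M' = dg M + s + r

/-- induction hypothesis -/
def IHyp (t : ℕ) (N H : SimpleGraph V) (m : ℕ) : Prop :=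
  ∀ M : SimpleGraph V, Free t M → M ≤ H → df M N < m →
    ∀ s : V → ℤ, Step (dg M) (dg N) s → Ex t N H M s

/-- the target vectors are not attained -/
def Fail (t : ℕ) (N H : SimpleGraph V) (m : ℕ) (z : V → ℤ) : Prop :=
  ∀ (M' : SimpleGraph V) (r : V → ℤ), Free t M' → M' ≤ H → df M' N ≤ m →
    Step z (dg N) r → dg M' = z + r → False

/-- a state of the walk: `M` is feasible and `h` is the hole -/
structure St (t : ℕ) (N H : SimpleGraph V) (m : ℕ) (z : V → ℤ) (M : SimpleGraph V) (h : V) :
    Prop where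
  free : Free t M
  le : M ≤ H
  df_eq : df M N = m
  dg_eq : dg M + Pi.single h 1 = z
  lt : dg M h < dg N h

lemma use_ih (hIH : IHyp t N H m) (hF : Fail t N H m z) {M1 : SimpleGraph V} {s : V → ℤ}
    (h1 : Free t M1) (h2 : M1 ≤ H) (h3 : df M1 N < m) (h4 : Step (dg M1) (dg N) s)
    (h5 : dg M1 + s = z) : False := by
  obtain ⟨M', r, a1, a2, a3, a4, a5⟩ := hIH M1 h1 h2 h3 s h4
  rw [h5] at a4 a5
  exact hF M' r a1 a2 (by omega) a4 a5

lemma blocked (hNH : N ≤ H) (hIH : IHyp t N H m) (hF : Fail t N H m z) {M : SimpleGraph V}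
    {h u : V} (hs : St t N H m z M h) (hu : N.Adj h u) (hu' : ¬ M.Adj h u) :
    ¬ Free t (M ⊔ SimpleGraph.edge h u) := by
  intro hfree
  have hle : M ⊔ SimpleGraph.edge h u ≤ H := by
    apply sup_le hs.le
    rw [SimpleGraph.edge_le_iff]
    exact Or.inr (hNH hu)
  have hdf := df_sup_edge hu hu'
  have hdg := dg_sup_edge hu.ne hu'
  rw [hs.dg_eq] at hdg
  have hm := hs.df_eq
  by_cases hlt : z u < dg N u
  · exact hF _ (Pi.single u 1) hfree hle (by omega) ⟨u, Or.inl ⟨rfl, hlt⟩⟩ hdg
  · refine use_ih hIH hF hfree hle (by omega) (s := Pi.single u (-1)) ⟨u, Or.inr ⟨rfl, ?_⟩⟩ ?_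
    · rw [hdg, Pi.add_apply, Pi.single_eq_same]
      omega
    · rw [hdg, add_assoc, ← Pi.single_add]
      simp

lemma orient {M : SimpleGraph V} (hM : Free t M) {h u : V} {A B : Finset V}
    (hA : A.Nonempty) (hB : B.Nonempty)
    (hK : ∀ a ∈ A, ∀ b ∈ B, (M ⊔ SimpleGraph.edge h u).Adj a b)
    (hc : t + 2 ≤ A.card + B.card) : (h ∈ A ∧ u ∈ B) ∨ (u ∈ A ∧ h ∈ B) := by
  by_contra hcon
  have := hM A B hA hB (by
    intro a ha b hb
    have h1 := hK a ha b hb
    rw [SimpleGraph.sup_adj, SimpleGraph.edge_adj] at h1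
    rcases h1 with h1 | ⟨h1 | h1, _⟩
    · exact h1
    · exact absurd (Or.inl ⟨h1.1 ▸ ha, h1.2 ▸ hb⟩) hcon
    · exact absurd (Or.inr ⟨h1.1 ▸ ha, h1.2 ▸ hb⟩) hcon)
  omega

/-- a violating biclique of `M` plus the edge `h u` -/
structure Vio (t : ℕ) (M : SimpleGraph V) (h u : V) (A B : Finset V) : Prop where
  hA : h ∈ A
  uB : u ∈ B
  adj : ∀ a ∈ A, ∀ b ∈ B, (M ⊔ SimpleGraph.edge h u).Adj a b
  card : t + 2 ≤ A.card + B.card

/-- in a biclique through `h u` the other pairs are edges of `M` -/
lemma adj_of_ne {M : SimpleGraph V} {h u : V} {A B : Finset V} (hA : h ∈ A)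
    (hK : ∀ a ∈ A, ∀ b ∈ B, (M ⊔ SimpleGraph.edge h u).Adj a b)
    {a b : V} (ha : a ∈ A) (hb : b ∈ B) (hne : ¬ (a = h ∧ b = u)) : M.Adj a b := by
  have h1 := hK a ha b hb
  rw [SimpleGraph.sup_adj, SimpleGraph.edge_adj] at h1
  rcases h1 with h1 | ⟨h1 | h1, _⟩
  · exact h1
  · exact absurd h1 hne
  · have h2 := hK h hA b hb
    rw [h1.2] at h2
    exact absurd h2 (SimpleGraph.irrefl _)

lemma hole_card {M : SimpleGraph V} {h : V} (hN : Free t N) (hs : St t N H m z M h) :
    (nb M h).card + 1 ≤ t := by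
  have h1 := hs.lt
  have h2 := hN.card_nb h
  unfold dg at h1
  have h3 : (nb M h).card < (nb N h).card := by exact_mod_cast h1
  omega

lemma nb_sup_hole {M : SimpleGraph V} {h u : V} {A B : Finset V} (hA : h ∈ A)
    (hK : ∀ a ∈ A, ∀ b ∈ B, (M ⊔ SimpleGraph.edge h u).Adj a b) :
    B.erase u ⊆ nb M h := by
  intro b hb
  rw [Finset.mem_erase] at hb
  exact mem_nb.2 (adj_of_ne hA hK hA hb.2 (fun h3 => hb.1 h3.2))

lemma size_le {M : SimpleGraph V} {h u : V} (hN : Free t N) (hs : St t N H m z M h)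
    {A B : Finset V} (hA : h ∈ A) (hB : u ∈ B)
    (hK : ∀ a ∈ A, ∀ b ∈ B, (M ⊔ SimpleGraph.edge h u).Adj a b) :
    A.card + B.card ≤ t + 2 ∧ (A = {h} → A.card + B.card ≤ t + 1) := by
  have hcardB : B.card ≤ t := by
    have h1 := Finset.card_le_card (nb_sup_hole hA hK)
    rw [Finset.card_erase_of_mem hB] at h1
    have h2 := hole_card hN hs
    omega
  have hsingle : A = {h} → A.card + B.card ≤ t + 1 := by
    intro h1
    rw [h1, Finset.card_singleton]
    omega
  refine ⟨?_, hsingle⟩
  by_cases hAh : A = {h}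
  · have := hsingle hAh
    omega
  · have hne : (A.erase h).Nonempty := by
      rw [Finset.nonempty_iff_ne_empty]
      intro h1
      apply hAh
      rw [← Finset.insert_erase hA, h1]
      rfl
    have h1 := hs.free (A.erase h) B hne ⟨u, hB⟩ (by
      intro a ha b hb
      rw [Finset.mem_erase] at ha
      exact adj_of_ne hA hK ha.2 hb (fun h3 => ha.1 h3.1))
    rw [Finset.card_erase_of_mem hA] at h1
    have : 0 < A.card := Finset.card_pos.2 ⟨h, hA⟩
    omega

/-- the violating biclique with the smallest first side -/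
lemma exists_min_block (hNH : N ≤ H) (hN : Free t N) (hIH : IHyp t N H m)
    (hF : Fail t N H m z) {M : SimpleGraph V}
    {h u : V} (hs : St t N H m z M h) (hu : N.Adj h u) (hu' : ¬ M.Adj h u) :
    ∃ A B : Finset V, Vio t M h u A B ∧ ∀ A' B' : Finset V, Vio t M h u A' B' → A ⊆ A' := by
  have h1 := blocked hNH hIH hF hs hu hu'
  unfold Free at h1
  push Not at h1
  obtain ⟨A0, B0, hA0, hB0, hK0, hc0⟩ := h1
  have h2 : ∃ A B : Finset V, Vio t M h u A B := by
    rcases orient hs.free hA0 hB0 hK0 (by omega) with h3 | h3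
    · exact ⟨A0, B0, h3.1, h3.2, hK0, by omega⟩
    · exact ⟨B0, A0, h3.2, h3.1, fun a ha b hb => (hK0 b hb a ha).symm, by omega⟩
  have h3 : ∃ k : ℕ, ∃ A B : Finset V, Vio t M h u A B ∧ A.card = k := by
    obtain ⟨A, B, h4⟩ := h2
    exact ⟨_, A, B, h4, rfl⟩
  obtain ⟨A, B, hAB, hk⟩ := Nat.find_spec h3
  refine ⟨A, B, hAB, ?_⟩
  intro A' B' h'
  have hint : Vio t M h u (A ∩ A') (B ∪ B') := by
    refine ⟨Finset.mem_inter.2 ⟨hAB.hA, h'.hA⟩, Finset.mem_union_left _ hAB.uB, ?_, ?_⟩
    · intro a ha b hb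
      rw [Finset.mem_inter] at ha
      rw [Finset.mem_union] at hb
      rcases hb with hb | hb
      · exact hAB.adj a ha.1 b hb
      · exact h'.adj a ha.2 b hb
    · have hun := (size_le hN hs (A := A ∪ A') (B := B ∩ B') (u := u)
        (Finset.mem_union_left _ hAB.hA) (Finset.mem_inter.2 ⟨hAB.uB, h'.uB⟩) (by
          intro a ha b hb
          rw [Finset.mem_inter] at hb
          rw [Finset.mem_union] at ha
          rcases ha with ha | ha
          · exact hAB.adj a ha b hb.1
          · exact h'.adj a ha b hb.2)).1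
      have e1 := Finset.card_union_add_card_inter A A'
      have e2 := Finset.card_union_add_card_inter B B'
      have e3 := hAB.card
      have e4 := h'.card
      omega
  have hmin : Nat.find h3 ≤ (A ∩ A').card :=
    Nat.find_min' h3 ⟨_, _, hint, rfl⟩
  rw [← hk] at hmin
  have heq : A ∩ A' = A := Finset.eq_of_subset_of_card_le Finset.inter_subset_left hmin
  rw [← heq]
  exact Finset.inter_subset_right

/-- moving the hole inside the minimal block -/
lemma block_move (hNH : N ≤ H) (hIH : IHyp t N H m)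
    (hF : Fail t N H m z) {M : SimpleGraph V}
    {h u : V} (hs : St t N H m z M h) (hu : N.Adj h u) (hu' : ¬ M.Adj h u)
    {A B : Finset V} (hAB : Vio t M h u A B)
    (hmin : ∀ A' B' : Finset V, Vio t M h u A' B' → A ⊆ A') {v : V} (hv : v ∈ A)
    (hvh : v ≠ h) : N.Adj v u ∧ St t N H m z (mv M h u v) v := by
  have hQvu : (M ⊔ SimpleGraph.edge h u).Adj v u := hAB.adj v hv u hAB.uB
  have hMvu : M.Adj v u := adj_of_ne hAB.hA hAB.adj hv hAB.uB (fun h3 => hvh h3.1)
  have hvu : v ≠ u := hMvu.ne
  have hle : mv M h u v ≤ H := by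
    unfold mv
    refine le_trans sdiff_le (sup_le hs.le ?_)
    rw [SimpleGraph.edge_le_iff]
    exact Or.inr (hNH hu)
  have hnot : ¬ (mv M h u v).Adj v u := by
    rw [mv_adj hu.ne hvu]
    rintro ⟨_, h2⟩
    exact h2 (Or.inl ⟨rfl, rfl⟩)
  have hleQ : mv M h u v ≤ M ⊔ SimpleGraph.edge h u := by
    unfold mv
    exact sdiff_le
  have hfree : Free t (mv M h u v) := by
    intro A' B' hA' hB' hK'
    by_contra hcon
    have hKQ : ∀ a ∈ A', ∀ b ∈ B', (M ⊔ SimpleGraph.edge h u).Adj a b :=
      fun a ha b hb => hleQ (hK' a ha b hb)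
    rcases orient hs.free hA' hB' hKQ (by omega) with h3 | h3
    · have h4 := hmin A' B' ⟨h3.1, h3.2, hKQ, by omega⟩
      exact hnot (hK' v (h4 hv) u h3.2)
    · have h4 := hmin B' A' ⟨h3.2, h3.1, fun a ha b hb => (hKQ b hb a ha).symm, by omega⟩
      exact hnot (hK' u h3.1 v (h4 hv)).symm
  have hdg : dg (mv M h u v) = z + Pi.single v (-1) := by
    rw [dg_mv hu.ne hu' hMvu, hs.dg_eq]
  have hdgv : dg (mv M h u v) v = z v - 1 := by
    rw [hdg, Pi.add_apply, Pi.single_eq_same]
    ring
  have hdg1 : dg (mv M h u v) + Pi.single v 1 = z := by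
    rw [hdg, add_assoc, ← Pi.single_add]
    simp
  have hdfQ := df_sup_edge hu hu'
  have hm := hs.df_eq
  have hNvu : N.Adj v u := by
    by_contra hcon
    have hdf : df (mv M h u v) N + 2 = df (M ⊔ SimpleGraph.edge h u) N := by
      unfold mv
      exact df_sdiff_edge hQvu hcon
    by_cases hlt : dg N v < z v
    · exact hF _ (Pi.single v (-1)) hfree hle (by omega) ⟨v, Or.inr ⟨rfl, hlt⟩⟩ hdg
    · exact use_ih hIH hF hfree hle (by omega) (s := Pi.single v 1)
        ⟨v, Or.inl ⟨rfl, by rw [hdgv]; omega⟩⟩ hdg1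
  refine ⟨hNvu, hfree, hle, ?_, hdg1, ?_⟩
  · have hdf : df (mv M h u v) N = df (M ⊔ SimpleGraph.edge h u) N + 2 := by
      unfold mv
      exact df_sdiff_edge' hQvu hNvu
    omega
  · rw [hdgv]
    by_contra hcon
    have hdf : df (mv M h u v) N = df (M ⊔ SimpleGraph.edge h u) N + 2 := by
      unfold mv
      exact df_sdiff_edge' hQvu hNvu
    exact hF _ (Pi.single v (-1)) hfree hle (by omega) ⟨v, Or.inr ⟨rfl, by omega⟩⟩ hdg

end states

section blocks

variable {t : ℕ} {N H : SimpleGraph V} {m : ℕ} {z : V → ℤ}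

/-- two blocks at the same hole have disjoint second sides, and these are small together -/
lemma two_blocks (hN : Free t N) {M : SimpleGraph V} {h u w : V} (hs : St t N H m z M h)
    (hu' : ¬ M.Adj h u) (hw' : ¬ M.Adj h w) (huw : u ≠ w)
    {A B A' B' : Finset V} (h1 : Vio t M h u A B) (h2 : Vio t M h w A' B') :
    B.card + B'.card ≤ t + 1 := by
  have huB' : u ∉ B' := by
    intro h3
    exact hu' (adj_of_ne h2.hA h2.adj h2.hA h3 (fun h4 => huw h4.2))
  have hwB : w ∉ B := by
    intro h3
    exact hw' (adj_of_ne h1.hA h1.adj h1.hA h3 (fun h4 => huw h4.2.symm))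
  have hadj : ∀ a ∈ A ∩ A', ∀ b ∈ B ∪ B', a ≠ h → M.Adj a b := by
    intro a ha b hb hah
    rw [Finset.mem_inter] at ha
    rw [Finset.mem_union] at hb
    rcases hb with hb | hb
    · exact adj_of_ne h1.hA h1.adj ha.1 hb (fun h4 => hah h4.1)
    · exact adj_of_ne h2.hA h2.adj ha.2 hb (fun h4 => hah h4.1)
  have hBB : (B ∪ B').card ≤ t + 1 := by
    have hsub : (B ∪ B') ⊆ insert u (insert w (nb M h)) := by
      intro b hb
      rw [Finset.mem_insert, Finset.mem_insert]
      by_cases hbu : b = u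
      · exact Or.inl hbu
      · by_cases hbw : b = w
        · exact Or.inr (Or.inl hbw)
        · right; right
          rw [Finset.mem_union] at hb
          rcases hb with hb | hb
          · exact nb_sup_hole h1.hA h1.adj (Finset.mem_erase.2 ⟨hbu, hb⟩)
          · exact nb_sup_hole h2.hA h2.adj (Finset.mem_erase.2 ⟨hbw, hb⟩)
    have h3 := Finset.card_le_card hsub
    have h4 := Finset.card_insert_le u (insert w (nb M h))
    have h5 := Finset.card_insert_le w (nb M h)
    have h6 := hole_card hN hs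
    omega
  have hdisj : B ∩ B' = ∅ := by
    by_contra hcon
    rw [← Ne, ← Finset.nonempty_iff_ne_empty] at hcon
    have hun := hs.free (A ∪ A') (B ∩ B') ⟨h, Finset.mem_union_left _ h1.hA⟩ hcon (by
      intro a ha b hb
      rw [Finset.mem_inter] at hb
      rw [Finset.mem_union] at ha
      rcases ha with ha | ha
      · exact adj_of_ne h1.hA h1.adj ha hb.1 (fun h4 => huB' (h4.2 ▸ hb.2))
      · exact adj_of_ne h2.hA h2.adj ha hb.2 (fun h4 => hwB (h4.2 ▸ hb.1)))
    have e1 := Finset.card_union_add_card_inter A A'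
    have e2 := Finset.card_union_add_card_inter B B'
    have e3 := h1.card
    have e4 := h2.card
    have hmem : h ∈ A ∩ A' := Finset.mem_inter.2 ⟨h1.hA, h2.hA⟩
    by_cases hAA : ((A ∩ A').erase h).Nonempty
    · have h5 := hs.free ((A ∩ A').erase h) (B ∪ B') hAA ⟨u, Finset.mem_union_left _ h1.uB⟩ (by
        intro a ha b hb
        rw [Finset.mem_erase] at ha
        exact hadj a ha.2 b hb ha.1)
      rw [Finset.card_erase_of_mem hmem] at h5
      have : 0 < (A ∩ A').card := Finset.card_pos.2 ⟨h, hmem⟩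
      omega
    · rw [Finset.not_nonempty_iff_eq_empty] at hAA
      have h5 : (A ∩ A').card = 1 := by
        rw [← Finset.insert_erase hmem, hAA]
        rfl
      omega
  have h3 := Finset.card_union_add_card_inter B B'
  rw [hdisj, Finset.card_empty] at h3
  omega

/-- at a hole there are more addable edges than removable ones -/
lemma exists_second {M : SimpleGraph V} {h u b : V} (hs : St t N H m z M h)
    (hb : M.Adj h b) (hb' : ¬ N.Adj h b) :
    ∃ w, w ≠ u ∧ N.Adj h w ∧ ¬ M.Adj h w := by
  have h1 := hs.lt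
  unfold dg at h1
  have h2 : (nb M h).card < (nb N h).card := by exact_mod_cast h1
  have h3 : (nb M h \ nb N h).card < (nb N h \ nb M h).card := by
    have e1 := Finset.card_sdiff_add_card_inter (nb M h) (nb N h)
    have e2 := Finset.card_sdiff_add_card_inter (nb N h) (nb M h)
    rw [Finset.inter_comm] at e2
    omega
  have h4 : 0 < (nb M h \ nb N h).card :=
    Finset.card_pos.2 ⟨b, Finset.mem_sdiff.2 ⟨mem_nb.2 hb, fun h5 => hb' (mem_nb.1 h5)⟩⟩
  have h5 : 1 < (nb N h \ nb M h).card := by omega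
  obtain ⟨w, hw, hwu⟩ := Finset.exists_mem_ne h5 u
  rw [Finset.mem_sdiff, mem_nb, mem_nb] at hw
  exact ⟨w, hwu, hw.1, hw.2⟩

/-- the second side of a minimal block is small -/
lemma block_card (hNH : N ≤ H) (hN : Free t N) (hIH : IHyp t N H m)
    (hF : Fail t N H m z) {M : SimpleGraph V}
    {h u : V} (hs : St t N H m z M h) (hu : N.Adj h u) (hu' : ¬ M.Adj h u)
    {A B : Finset V} (hAB : Vio t M h u A B)
    (hmin : ∀ A' B' : Finset V, Vio t M h u A' B' → A ⊆ A') :
    2 ≤ B.card ∧ B.card + 1 ≤ t := by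
  have hsz := size_le hN hs hAB.hA hAB.uB hAB.adj
  have hc := hAB.card
  have hKN : ∀ a ∈ A, N.Adj a u := by
    intro a ha
    by_cases hah : a = h
    · rw [hah]; exact hu
    · exact (block_move hNH hIH hF hs hu hu' hAB hmin ha hah).1
  have hB2 : 2 ≤ B.card := by
    by_contra hcon
    have h1 : 0 < B.card := Finset.card_pos.2 ⟨u, hAB.uB⟩
    have h3 := hN A {u} ⟨h, hAB.hA⟩ (by simp) (by
      intro a ha b hb
      rw [Finset.mem_singleton] at hb
      rw [hb]
      exact hKN a ha)
    rw [Finset.card_singleton] at h3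
    omega
  refine ⟨hB2, ?_⟩
  have h1 : ∃ a ∈ A, ∃ b ∈ B, ¬ N.Adj a b := by
    by_contra hcon
    push Not at hcon
    have := hN A B ⟨h, hAB.hA⟩ ⟨u, hAB.uB⟩ hcon
    omega
  obtain ⟨a, ha, b, hb, hab⟩ := h1
  have hbu : b ≠ u := by
    rintro rfl
    exact hab (hKN a ha)
  have hMab : M.Adj a b := adj_of_ne hAB.hA hAB.adj ha hb (fun h3 => hbu h3.2)
  by_cases hah : a = h
  · subst hah
    obtain ⟨w, hwu, hw, hw'⟩ := exists_second (u := u) hs hMab hab
    obtain ⟨A', B', h2, h3⟩ := exists_min_block hNH hN hIH hF hs hw hw'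
    have h4 := two_blocks hN hs hu' hw' hwu.symm hAB h2
    have h5 : 2 ≤ B'.card := by
      have hsz' := size_le hN hs h2.hA h2.uB h2.adj
      have hc' := h2.card
      by_contra hcon
      have h6 : 0 < B'.card := Finset.card_pos.2 ⟨w, h2.uB⟩
      have h7 := hN A' {w} ⟨a, h2.hA⟩ (by simp) (by
        intro a' ha' b' hb'
        rw [Finset.mem_singleton] at hb'
        rw [hb']
        by_cases hah : a' = a
        · rw [hah]; exact hw
        · exact (block_move hNH hIH hF hs hw hw' h2 h3 ha' hah).1)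
      rw [Finset.card_singleton] at h7
      omega
    omega
  · obtain ⟨hNau, hs'⟩ := block_move hNH hIH hF hs hu hu' hAB hmin ha hah
    have hau : a ≠ u := hNau.ne
    have hQau : M.Adj a u := adj_of_ne hAB.hA hAB.adj ha hAB.uB (fun h3 => hah h3.1)
    have hnot : ¬ (mv M h u a).Adj a u := by
      rw [mv_adj hu.ne hau]
      rintro ⟨_, h2⟩
      exact h2 (Or.inl ⟨rfl, rfl⟩)
    have hb1 : (mv M h u a).Adj a b := by
      rw [mv_adj hu.ne hau]
      refine ⟨Or.inl hMab, ?_⟩
      rintro (h3 | h3)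
      · exact hbu h3.2
      · exact hau h3.1
    obtain ⟨w, hwu, hw, hw'⟩ := exists_second (u := u) hs' hb1 hab
    obtain ⟨A', B', h2, h3⟩ := exists_min_block hNH hN hIH hF hs' hw hw'
    have hvio : Vio t (mv M h u a) a u A B := by
      refine ⟨ha, hAB.uB, ?_, hc⟩
      intro x hx y hy
      have h4 := hAB.adj x hx y hy
      rw [SimpleGraph.sup_adj, mv_adj hu.ne hau, SimpleGraph.edge_adj]
      rw [SimpleGraph.sup_adj, SimpleGraph.edge_adj] at h4
      by_cases h5 : (x = a ∧ y = u) ∨ (x = u ∧ y = a)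
      · exact Or.inr ⟨h5, by
          rcases h5 with h5 | h5
          · rw [h5.1, h5.2]; exact hau
          · rw [h5.1, h5.2]; exact hau.symm⟩
      · left
        refine ⟨?_, h5⟩
        rcases h4 with h4 | ⟨h4, _⟩
        · exact Or.inl h4
        · exact Or.inr h4
    have h4 := two_blocks hN hs' hnot hw' hwu.symm hvio h2
    have h5 : 2 ≤ B'.card := by
      have hsz' := size_le hN hs' h2.hA h2.uB h2.adj
      have hc' := h2.card
      by_contra hcon
      have h6 : 0 < B'.card := Finset.card_pos.2 ⟨w, h2.uB⟩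
      have h7 := hN A' {w} ⟨a, h2.hA⟩ (by simp) (by
        intro a' ha' b' hb'
        rw [Finset.mem_singleton] at hb'
        rw [hb']
        by_cases hah : a' = a
        · rw [hah]; exact hw
        · exact (block_move hNH hIH hF hs' hw hw' h2 h3 ha' hah).1)
      rw [Finset.card_singleton] at h7
      omega
    omega

/-- the host graph has no biclique on `t + 2` vertices with both sides of size at least three -/
def Thin (t : ℕ) (H : SimpleGraph V) : Prop :=
  ∀ A B : Finset V, 3 ≤ A.card → 3 ≤ B.card → A.card + B.card = t + 2 →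
    ¬ ∀ a ∈ A, ∀ b ∈ B, H.Adj a b

/-- structure of every blocked edge at a hole -/
lemma structureP (hNH : N ≤ H) (hN : Free t N) (hH : Thin t H) (hIH : IHyp t N H m)
    (hF : Fail t N H m z) {M : SimpleGraph V}
    {h u : V} (hs : St t N H m z M h) (hu : N.Adj h u) (hu' : ¬ M.Adj h u) :
    3 ≤ t ∧ (nb N u).card = t ∧ (∀ a, N.Adj a u → a ≠ h → M.Adj a u) ∧
      (∃ b, b ≠ u ∧ nb M b = nb N u) ∧
      (∀ v, N.Adj v u → v ≠ h → St t N H m z (mv M h u v) v) := by
  obtain ⟨A, B, hAB, hmin⟩ := exists_min_block hNH hN hIH hF hs hu hu'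
  have hsz := size_le hN hs hAB.hA hAB.uB hAB.adj
  have hc := hAB.card
  obtain ⟨hB2, hBt⟩ := block_card hNH hN hIH hF hs hu hu' hAB hmin
  have hKN : ∀ a ∈ A, N.Adj a u := by
    intro a ha
    by_cases hah : a = h
    · rw [hah]; exact hu
    · exact (block_move hNH hIH hF hs hu hu' hAB hmin ha hah).1
  have hB : B.card = 2 := by
    by_contra hne
    refine hH A B (by omega) (by omega) (by omega) ?_
    intro a ha b hb
    have h1 := hAB.adj a ha b hb
    rw [SimpleGraph.sup_adj, SimpleGraph.edge_adj] at h1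
    rcases h1 with h1 | ⟨h1 | h1, _⟩
    · exact hs.le h1
    · rw [h1.1, h1.2]; exact hNH hu
    · rw [h1.1, h1.2]; exact (hNH hu).symm
  have hA : A.card = t := by omega
  have hAN : A = nb N u := by
    apply Finset.eq_of_subset_of_card_le
    · intro a ha
      exact mem_nb.2 (hKN a ha).symm
    · rw [hA]; exact hN.card_nb u
  obtain ⟨b, hb, hbu⟩ := Finset.exists_mem_ne (by omega : 1 < B.card) u
  have hAb : A = nb M b := by
    apply Finset.eq_of_subset_of_card_le
    · intro a ha
      exact mem_nb.2 (adj_of_ne hAB.hA hAB.adj ha hb (fun h3 => hbu h3.2)).symm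
    · rw [hA]; exact hs.free.card_nb b
  refine ⟨by omega, by rw [← hAN]; exact hA, ?_, ⟨b, hbu, by rw [← hAb, hAN]⟩, ?_⟩
  · intro a ha hah
    have haA : a ∈ A := by rw [hAN]; exact mem_nb.2 ha.symm
    exact adj_of_ne hAB.hA hAB.adj haA hAB.uB (fun h3 => hah h3.1)
  · intro v hv hvh
    have hvA : v ∈ A := by rw [hAN]; exact mem_nb.2 hv.symm
    exact (block_move hNH hIH hF hs hu hu' hAB hmin hvA hvh).2

end blocks

section walk

variable {t : ℕ} {N H : SimpleGraph V} {m : ℕ} {z : V → ℤ}

lemma more_add {M : SimpleGraph V} {h : V} (hs : St t N H m z M h) :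
    (nb M h \ nb N h).card < (nb N h \ nb M h).card := by
  have h1 := hs.lt
  unfold dg at h1
  have h2 : (nb M h).card < (nb N h).card := by exact_mod_cast h1
  have e1 := Finset.card_sdiff_add_card_inter (nb M h) (nb N h)
  have e2 := Finset.card_sdiff_add_card_inter (nb N h) (nb M h)
  rw [Finset.inter_comm] at e2
  omega

/-- the record of the walk: `U` is the set of used columns, `ζ u` the row of the missing edge,
`β u` the twin of the column `u` -/
def Rec (t : ℕ) (N M : SimpleGraph V) (h : V) (U : Finset V) (ζ β : V → V) : Prop :=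
  ∀ u ∈ U, N.Adj (ζ u) u ∧ ¬ M.Adj (ζ u) u ∧ M.Adj (ζ u) (β u) ∧ ¬ N.Adj (ζ u) (β u) ∧
    nb M (β u) = nb N u ∧ (nb N u).card = t ∧ (∀ a, N.Adj a u → a ≠ ζ u → M.Adj a u) ∧ u ≠ h

/-- neighbourhoods of vertices which are not touched by a move -/
lemma nb_mv_of_ne {M : SimpleGraph V} {h u v x : V} (hhu : h ≠ u) (hvu : v ≠ u)
    (h1 : x ≠ h) (h2 : x ≠ u) (h3 : x ≠ v) : nb (mv M h u v) x = nb M x := by
  ext y
  rw [mem_nb, mem_nb, mv_adj hhu hvu]
  constructor
  · rintro ⟨h4 | h4 | h4, _⟩
    · exact h4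
    · exact absurd h4.1 h1
    · exact absurd h4.1 h2
  · intro h4
    refine ⟨Or.inl h4, ?_⟩
    rintro (h5 | h5)
    · exact h3 h5.1
    · exact h2 h5.1

/-- there is a clean addable edge at the hole -/
lemma exists_clean (hNH : N ≤ H) (hN : Free t N) (hH : Thin t H) (hIH : IHyp t N H m)
    (hF : Fail t N H m z) {M : SimpleGraph V} {h : V} (hs : St t N H m z M h) :
    ∃ u b, N.Adj h u ∧ ¬ M.Adj h u ∧ b ≠ u ∧ nb M b = nb N u ∧ N.Adj h b := by
  by_contra hcon
  push Not at hcon
  have hex : ∀ u, ∃ b, N.Adj h u → ¬ M.Adj h u → b ≠ u ∧ nb M b = nb N u := by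
    intro u
    by_cases h1 : N.Adj h u ∧ ¬ M.Adj h u
    · obtain ⟨_, _, _, ⟨b, hb⟩, _⟩ := structureP hNH hN hH hIH hF hs h1.1 h1.2
      exact ⟨b, fun _ _ => hb⟩
    · exact ⟨u, fun h2 h3 => absurd ⟨h2, h3⟩ h1⟩
  choose f hf using hex
  have hcard : (nb N h \ nb M h).card ≤ (nb M h \ nb N h).card := by
    apply Finset.card_le_card_of_injOn f
    · intro u hu
      rw [Finset.mem_coe, Finset.mem_sdiff, mem_nb, mem_nb] at hu
      obtain ⟨h1, h2⟩ := hf u hu.1 hu.2
      rw [Finset.mem_coe, Finset.mem_sdiff, mem_nb, mem_nb]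
      refine ⟨?_, hcon u (f u) hu.1 hu.2 h1 h2⟩
      have h3 : h ∈ nb M (f u) := by
        rw [h2]; exact mem_nb.2 hu.1.symm
      exact (mem_nb.1 h3).symm
    · intro u hu w hw huw
      rw [Finset.mem_coe, Finset.mem_sdiff, mem_nb, mem_nb] at hu hw
      obtain ⟨_, h2⟩ := hf u hu.1 hu.2
      obtain ⟨_, h4⟩ := hf w hw.1 hw.2
      obtain ⟨h3, h5, _⟩ := structureP hNH hN hH hIH hF hs hu.1 hu.2
      have h6 : nb N u = nb N w := by rw [← h2, ← h4, huw]
      refine hN.eq_of_nb (S := nb N u) h5 (by omega) (fun a ha => mem_nb.1 ha) (fun a ha => ?_)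
      rw [h6] at ha
      exact mem_nb.1 ha
  have := more_add hs
  omega

/-- one step of the walk -/
lemma walk_step (hNH : N ≤ H) (hN : Free t N) (hH : Thin t H) (hIH : IHyp t N H m)
    (hF : Fail t N H m z) {M : SimpleGraph V} {h : V} (hs : St t N H m z M h)
    {U : Finset V} {ζ β : V → V} (hR : Rec t N M h U ζ β) :
    ∃ (M' : SimpleGraph V) (h' : V) (U' : Finset V) (ζ' β' : V → V),
      St t N H m z M' h' ∧ Rec t N M' h' U' ζ' β' ∧ U'.card = U.card + 1 := by
  obtain ⟨u, b, hu, hu', hbu, hb, hhb⟩ := exists_clean hNH hN hH hIH hF hs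
  obtain ⟨ht, hcu, hcol, _, hmove⟩ := structureP hNH hN hH hIH hF hs hu hu'
  -- the row of the removable edge
  have hv : ∃ v, N.Adj v u ∧ ¬ N.Adj v b := by
    by_contra hcon
    push Not at hcon
    exact hbu (hN.eq_of_nb (S := nb N u) hcu (by omega) (fun a ha => mem_nb.1 ha)
      (fun a ha => (hcon a (mem_nb.1 ha).symm).symm)).symm
  obtain ⟨v, hvu, hvb⟩ := hv
  have hvh : v ≠ h := by
    rintro rfl
    exact hvb hhb
  have hMvb : M.Adj v b := by
    have h1 : v ∈ nb M b := by rw [hb]; exact mem_nb.2 hvu.symm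
    exact (mem_nb.1 h1).symm
  have hMvu : M.Adj v u := hcol v hvu hvh
  have hhu : h ≠ u := hu.ne
  have hvne : v ≠ u := hvu.ne
  have hs' := hmove v hvu hvh
  have hbh : b ≠ h := hhb.ne.symm
  have hbv : b ≠ v := hMvb.ne.symm
  have hMhb : M.Adj h b := by
    have h1 : h ∈ nb M b := by rw [hb]; exact mem_nb.2 hu.symm
    exact (mem_nb.1 h1).symm
  have hadj : ∀ x y, (mv M h u v).Adj x y ↔ (M.Adj x y ∨ (x = h ∧ y = u) ∨ (x = u ∧ y = h)) ∧
      ¬ ((x = v ∧ y = u) ∨ (x = u ∧ y = v)) := fun x y => mv_adj hhu hvne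
  have hnbb : nb (mv M h u v) b = nb N u := by
    rw [nb_mv_of_ne hhu hvne hbh hbu hbv, hb]
  -- `u` has not been used
  have huU : u ∉ U := by
    intro huU
    obtain ⟨_, _, _, r4, r5, _, r7, _⟩ := hR u huU
    have h1 : h = ζ u := by
      by_contra hne
      exact hu' (r7 h hu hne)
    have h2 : β u = b := by
      refine hs.free.eq_of_nb (S := nb N u) hcu (by omega) (fun a ha => ?_) (fun a ha => ?_)
      · rw [← r5] at ha; exact mem_nb.1 ha
      · rw [← hb] at ha; exact mem_nb.1 ha
    rw [← h1, h2] at r4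
    exact r4 hhb
  have key : ∀ u' ∈ U, v ≠ u' ∧ u ≠ β u' ∧ v ≠ β u' ∧ β u' ≠ h := by
    intro u' hu'U
    obtain ⟨r1, r2, r3, r4, r5, r6, r7, r8⟩ := hR u' hu'U
    set b' := β u' with hb'
    set z' := ζ u' with hz'
    have huu' : u ≠ u' := by
      rintro rfl
      exact huU hu'U
    have hb'h : b' ≠ h := by
      intro h1
      have h2 := hole_card hN hs
      rw [← h1, r5, r6] at h2
      omega
    refine ⟨?_, ?_, ?_, hb'h⟩
    · -- the hole does not reach `u'`
      rintro rfl
      have hzu : z' ≠ u := by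
        rintro h1
        rw [h1] at r2
        exact r2 hMvu.symm
      have hnot : ¬ (mv M h u v).Adj v z' := by
        rw [hadj]
        rintro ⟨h1 | h1 | h1, _⟩
        · exact r2 h1.symm
        · exact hvh h1.1
        · exact hvne h1.1
      obtain ⟨_, q2, _, ⟨c, hcz, hc⟩, _⟩ := structureP hNH hN hH hIH hF hs' r1.symm hnot
      have hcb : c ≠ b := by
        rintro rfl
        rw [hnbb] at hc
        apply hzu
        refine hN.eq_of_nb (S := nb N z') q2 (by omega) (fun a ha => mem_nb.1 ha)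
          (fun a ha => ?_)
        rw [← hc] at ha
        exact mem_nb.1 ha
      have h1 : (mv M h u v).Adj c v := by
        apply mem_nb.1
        rw [hc]
        exact mem_nb.2 r1
      have h2 := (hadj v c).1 h1.symm
      have h3 : M.Adj v c := by
        rcases h2.1 with h4 | h4 | h4
        · exact h4
        · exact absurd h4.1 hvh
        · exact absurd h4.1 hvne
      have hcu' : c ≠ u := by
        intro h4
        exact h2.2 (Or.inl ⟨rfl, h4⟩)
      have h5 : insert b ((nb N v).erase z') = nb M v := by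
        apply Finset.eq_of_subset_of_card_le
        · intro x hx
          rw [Finset.mem_insert, Finset.mem_erase, mem_nb] at hx
          rcases hx with hx | hx
          · rw [hx]; exact mem_nb.2 hMvb
          · exact mem_nb.2 (r7 x hx.2.symm hx.1).symm
        · rw [Finset.card_insert_of_notMem, Finset.card_erase_of_mem (mem_nb.2 r1.symm), r6]
          · have := hs.free.card_nb v
            omega
          · rw [Finset.mem_erase, mem_nb]
            exact fun h6 => hvb h6.2
      have h6 : c ∈ insert b ((nb N v).erase z') := by rw [h5]; exact mem_nb.2 h3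
      rw [Finset.mem_insert, Finset.mem_erase] at h6
      rcases h6 with h6 | h6
      · exact hcb h6
      · have h7 : M.Adj b' c := by
          apply mem_nb.1
          rw [r5]
          exact h6.2
        have h8 : (mv M h u v).Adj b' c := by
          rw [hadj]
          refine ⟨Or.inl h7, ?_⟩
          rintro (h9 | h9)
          · exact hcu' h9.2
          · exact h3.ne h9.2.symm
        have h9 : b' ∈ nb (mv M h u v) c := mem_nb.2 h8.symm
        rw [hc, mem_nb] at h9
        exact r4 h9
    · -- the column is not a twin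
      intro h1
      rw [← h1] at r3 r4 r5
      have hsub : ∀ a ∈ (nb N u).erase h, M.Adj u a ∧ M.Adj b a ∧ M.Adj u' a := by
        intro a ha
        rw [Finset.mem_erase] at ha
        have ha2 : N.Adj u a := mem_nb.1 ha.2
        have ha3 : M.Adj a u := hcol a ha2.symm ha.1
        have ha4 : N.Adj u' a := by
          apply mem_nb.1
          rw [← r5]
          exact mem_nb.2 ha3.symm
        have ha5 : a ≠ z' := by
          intro h2
          rw [h2] at ha2
          exact r4 ha2.symm
        refine ⟨ha3.symm, ?_, (r7 a ha4.symm ha5).symm⟩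
        apply mem_nb.1
        rw [hb]
        exact ha.2
      have hbu' : b ≠ u' := by
        rintro rfl
        have h2 : h ∈ nb N b := mem_nb.2 hhb.symm
        rw [← r5, mem_nb] at h2
        exact hu' h2.symm
      have hcard3 : ({u, b, u'} : Finset V).card = 3 := by
        rw [Finset.card_insert_of_notMem, Finset.card_pair hbu']
        rw [Finset.mem_insert, Finset.mem_singleton, not_or]
        exact ⟨hbu.symm, huu'⟩
      have hce : ((nb N u).erase h).card = t - 1 := by
        rw [Finset.card_erase_of_mem (mem_nb.2 hu.symm), hcu]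
      have hne : ((nb N u).erase h).Nonempty := by
        rw [← Finset.card_pos, hce]; omega
      have h2 := hs.free {u, b, u'} ((nb N u).erase h) ⟨u, by simp⟩ hne (by
        intro x hx a ha
        obtain ⟨e1, e2, e3⟩ := hsub a ha
        rw [Finset.mem_insert, Finset.mem_insert, Finset.mem_singleton] at hx
        rcases hx with rfl | rfl | rfl
        · exact e1
        · exact e2
        · exact e3)
      rw [hcard3, hce] at h2
      omega
    · -- the hole does not reach a twin
      intro h1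
      rw [← h1] at r3 r4 r5
      have h2 : N.Adj u' u := by
        apply mem_nb.1
        rw [← r5]
        exact mem_nb.2 hMvu
      have h3 : M.Adj b u' := by
        apply mem_nb.1
        rw [hb]
        exact mem_nb.2 h2.symm
      have hbz : b ≠ z' := by
        intro h4
        rw [h4] at h3
        exact r2 h3
      have hvz : (mv M h u v).Adj v z' := by
        rw [hadj]
        refine ⟨Or.inl r3.symm, ?_⟩
        rintro (h4 | h4)
        · rw [h4.2] at r4
          exact r4 hvu.symm
        · exact hvne h4.1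
      have hvb' : (mv M h u v).Adj v b := by
        rw [hadj]
        refine ⟨Or.inl hMvb, ?_⟩
        rintro (h4 | h4)
        · exact hbu h4.2
        · exact hvne h4.1
      have hFc : ({z', b} : Finset V) ⊆ nb (mv M h u v) v \ nb N v := by
        intro x hx
        rw [Finset.mem_insert, Finset.mem_singleton] at hx
        rw [Finset.mem_sdiff, mem_nb, mem_nb]
        rcases hx with rfl | rfl
        · exact ⟨hvz, fun h4 => r4 h4.symm⟩
        · exact ⟨hvb', hvb⟩
      have h4 := Finset.card_le_card hFc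
      rw [Finset.card_pair hbz.symm] at h4
      have h5 := more_add hs'
      have h6 : 1 < ((nb N v \ nb (mv M h u v) v).erase u).card := by
        have h7 := Finset.pred_card_le_card_erase (s := nb N v \ nb (mv M h u v) v) (a := u)
        omega
      obtain ⟨w1, hw1, w2, hw2, hw12⟩ := Finset.one_lt_card.1 h6
      have hclaim : ∀ w ∈ (nb N v \ nb (mv M h u v) v).erase u,
          nb (mv M h u v) z' = nb N w ∧ (nb N w).card = t := by
        intro w hw
        rw [Finset.mem_erase, Finset.mem_sdiff, mem_nb, mem_nb] at hw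
        obtain ⟨hwu, hw3, hw4⟩ := hw
        obtain ⟨_, q2, _, ⟨c, hcw, hc⟩, _⟩ := structureP hNH hN hH hIH hF hs' hw3 hw4
        have h8 : (mv M h u v).Adj c v := by
          apply mem_nb.1
          rw [hc]
          exact mem_nb.2 hw3.symm
        have h9 := (hadj v c).1 h8.symm
        have h10 : M.Adj v c := by
          rcases h9.1 with h11 | h11 | h11
          · exact h11
          · exact absurd h11.1 hvh
          · exact absurd h11.1 hvne
        have hcu' : c ≠ u := by
          intro h11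
          exact h9.2 (Or.inl ⟨rfl, h11⟩)
        have hcz : c = z' := by
          by_contra hcz
          have h11 : N.Adj u' c := by
            apply mem_nb.1
            rw [← r5]
            exact mem_nb.2 h10
          have h12 : M.Adj c u' := r7 c h11.symm hcz
          have h13 : (mv M h u v).Adj c u' := by
            rw [hadj]
            refine ⟨Or.inl h12, ?_⟩
            rintro (h14 | h14)
            · exact huu' h14.2.symm
            · exact hcu' h14.1
          have h14 : u' ∈ nb N w := by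
            rw [← hc]
            exact mem_nb.2 h13
          have h15 : M.Adj v w := by
            apply mem_nb.1
            rw [r5]
            exact mem_nb.2 (mem_nb.1 h14).symm
          apply hw4
          rw [hadj]
          refine ⟨Or.inl h15, ?_⟩
          rintro (h16 | h16)
          · exact hwu h16.2
          · exact hvne h16.1
        rw [← hcz]
        exact ⟨hc, q2⟩
      obtain ⟨e1, e2⟩ := hclaim w1 hw1
      obtain ⟨e3, e4⟩ := hclaim w2 hw2
      apply hw12
      refine hN.eq_of_nb (S := nb N w1) e2 (by omega) (fun a ha => mem_nb.1 ha) (fun a ha => ?_)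
      rw [← e1, e3] at ha
      exact mem_nb.1 ha
  refine ⟨mv M h u v, v, insert u U, Function.update ζ u v, Function.update β u b, hs', ?_,
    Finset.card_insert_of_notMem huU⟩
  intro x hx
  rw [Finset.mem_insert] at hx
  by_cases hxu : x = u
  · subst hxu
    rw [Function.update_self, Function.update_self]
    refine ⟨hvu, ?_, ?_, hvb, hnbb, hcu, ?_, hvne.symm⟩
    · rw [hadj]
      rintro ⟨_, h1⟩
      exact h1 (Or.inl ⟨rfl, rfl⟩)
    · rw [hadj]
      refine ⟨Or.inl hMvb, ?_⟩
      rintro (h1 | h1)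
      · exact hbu h1.2
      · exact hvne h1.1
    · intro a ha hav
      rw [hadj]
      refine ⟨?_, ?_⟩
      · by_cases hah : a = h
        · exact Or.inr (Or.inl ⟨hah, rfl⟩)
        · exact Or.inl (hcol a ha hah)
      · rintro (h1 | h1)
        · exact hav h1.1
        · exact hvne h1.2.symm
  · have hxU : x ∈ U := by
      rcases hx with hx | hx
      · exact absurd hx hxu
      · exact hx
    rw [Function.update_of_ne hxu, Function.update_of_ne hxu]
    obtain ⟨r1, r2, r3, r4, r5, r6, r7, r8⟩ := hR x hxU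
    obtain ⟨k1, k2, k3, k4⟩ := key x hxU
    refine ⟨r1, ?_, ?_, r4, ?_, r6, ?_, k1.symm⟩
    · rw [hadj]
      rintro ⟨h1 | h1 | h1, _⟩
      · exact r2 h1
      · exact hxu h1.2
      · exact r8 h1.2
    · rw [hadj]
      refine ⟨Or.inl r3, ?_⟩
      rintro (h1 | h1)
      · exact k2 h1.2.symm
      · exact k3 h1.2.symm
    · rw [nb_mv_of_ne hhu hvne k4 k2.symm k3.symm, r5]
    · intro a ha haz
      rw [hadj]
      refine ⟨Or.inl (r7 a ha haz), ?_⟩
      rintro (h1 | h1)
      · exact hxu h1.2
      · exact k1 h1.2.symm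

/-- there is no state at all -/
lemma no_state (hNH : N ≤ H) (hN : Free t N) (hH : Thin t H) (hIH : IHyp t N H m)
    (hF : Fail t N H m z) {M : SimpleGraph V} {h : V} (hs : St t N H m z M h) : False := by
  have hall : ∀ k : ℕ, ∃ (M' : SimpleGraph V) (h' : V) (U' : Finset V) (ζ' β' : V → V),
      St t N H m z M' h' ∧ Rec t N M' h' U' ζ' β' ∧ U'.card = k := by
    intro k
    induction k with
    | zero => exact ⟨M, h, ∅, id, id, hs, by intro u hu; simp at hu, rfl⟩
    | succ k ih =>
      obtain ⟨M', h', U', ζ', β', h1, h2, h3⟩ := ih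
      obtain ⟨M'', h'', U'', ζ'', β'', g1, g2, g3⟩ := walk_step hNH hN hH hIH hF h1 h2
      exact ⟨M'', h'', U'', ζ'', β'', g1, g2, by omega⟩
  obtain ⟨_, _, U', _, _, _, _, h3⟩ := hall (Fintype.card V + 1)
  have := Finset.card_le_univ U'
  omega

/-- the exchange property -/
theorem exchange (hNH : N ≤ H) (hN : Free t N) (hH : Thin t H) :
    ∀ (m : ℕ) (M : SimpleGraph V), Free t M → M ≤ H → df M N = m →
      ∀ s : V → ℤ, Step (dg M) (dg N) s → Ex t N H M s := by
  intro m
  induction m using Nat.strong_induction_on with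
  | _ m ih =>
    intro M hM hMH hdf s hs
    have hIH : IHyp t N H m := fun M1 h1 h2 h3 s h4 => ih _ h3 M1 h1 h2 rfl s h4
    obtain ⟨v, ⟨rfl, hlt⟩ | ⟨rfl, hlt⟩⟩ := hs
    · by_contra hcon
      refine no_state (m := m) (z := dg M + Pi.single v 1) hNH hN hH hIH ?_
        (M := M) (h := v) ⟨hM, hMH, hdf, rfl, hlt⟩
      intro M' r h1 h2 h3 h4 h5
      exact hcon ⟨M', r, h1, h2, by omega, h4, h5⟩
    · -- a step down
      have h1 : ∃ w, M.Adj v w ∧ ¬ N.Adj v w := by
        by_contra hcon
        push Not at hcon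
        have h2 : nb M v ⊆ nb N v := fun w hw => mem_nb.2 (hcon w (mem_nb.1 hw))
        have h3 := Finset.card_le_card h2
        unfold dg at hlt
        have h4 : (nb N v).card < (nb M v).card := by exact_mod_cast hlt
        omega
      obtain ⟨w, hw, hw'⟩ := h1
      have hfree : Free t (M \ SimpleGraph.edge v w) := hM.mono sdiff_le
      have hle : M \ SimpleGraph.edge v w ≤ H := le_trans sdiff_le hMH
      have hdf1 := df_sdiff_edge hw hw'
      have hdg1 := dg_sdiff_edge hw
      have hne : w ≠ v := hw.ne.symm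
      by_cases hlt2 : dg N w < dg M w
      · refine ⟨M \ SimpleGraph.edge v w, Pi.single w (-1), hfree, hle, by omega, ?_, hdg1⟩
        refine ⟨w, Or.inr ⟨rfl, ?_⟩⟩
        rw [Pi.add_apply, Pi.single_eq_of_ne hne, add_zero]
        exact hlt2
      · have hstep : Step (dg (M \ SimpleGraph.edge v w)) (dg N) (Pi.single w 1) := by
          refine ⟨w, Or.inl ⟨rfl, ?_⟩⟩
          rw [hdg1, Pi.add_apply, Pi.add_apply, Pi.single_eq_of_ne hne, Pi.single_eq_same]
          omega
        obtain ⟨M', r, a1, a2, a3, a4, a5⟩ := hIH _ hfree hle (by omega) _ hstep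
        have hz : dg (M \ SimpleGraph.edge v w) + Pi.single w 1 = dg M + Pi.single v (-1) := by
          rw [hdg1, add_assoc, ← Pi.single_add]
          simp
        rw [hz] at a4 a5
        exact ⟨M', r, a1, a2, by omega, a4, a5⟩

end walk

end Pool.Agent.H20NC
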